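import Pool.Agent.Y395.RS.Stm

/-! Project RS (helper395): graphs with few moved vertices are reconstructible. -/

set_option autoImplicit false

namespace Pool.Agent.Y297.RS.HALF

open Finset Pool.Agent.H234RC Pool.Agent.TH953.RC

theorem exists_out {V : Type} [Fintype V] (A : Finset V) (h : A.card < Fintype.card V) :
    ∃ v : V, v ∉ A := by
  by_contra hcon
  push Not at hcon
  have h1 : (univ : Finset V) ⊆ A := fun v _ => hcon v
  have h2 := card_le_card h1
  rw [card_univ] at h2
  omega

theorem recon_of_TC {V : Type} (G : SimpleGraph V) (a b c : V) (h : TC G a b c) :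
    Reconstructible G := by
  intro W _ H hd
  obtain ⟨f, hf⟩ := hd
  exact h.2.2.2 W H (f a) (f b) (f c) (f.injective.ne h.1) (f.injective.ne h.2.1)
    (f.injective.ne h.2.2.1) (hf a) (hf b) (hf c)

theorem main : Pool.Agent.Y395.RS.HALF := by
  classical
  intro V _ _ G h3 hM
  obtain ⟨v1, hv1⟩ := exists_out (Mv G ∪ Lab G (fun _ => True)) (by
    have h1 := card_union_le (Mv G) (Lab G (fun _ => True))
    have h2 := card_Lab G (fun _ => True)
    omega)
  obtain ⟨v2, hv2⟩ := exists_out (insert v1 (Mv G ∪ Lab G (fun z => z ≠ v1))) (by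
    have h1 := card_union_le (Mv G) (Lab G (fun z => z ≠ v1))
    have h2 := card_Lab G (fun z => z ≠ v1)
    have h4 := card_insert_le v1 (Mv G ∪ Lab G (fun z => z ≠ v1))
    omega)
  obtain ⟨v3, hv3⟩ := exists_out ({v1, v2} : Finset V) (by
    have h1 : ({v1, v2} : Finset V).card ≤ 2 := card_le_two
    omega)
  rw [mem_union] at hv1
  rw [mem_insert, mem_union] at hv2
  rw [mem_insert, mem_singleton] at hv3
  push Not at hv1 hv2 hv3
  exact recon_of_TC G v1 v2 v3 (good_triple G v1 v2 v3 hv2.1.symm hv3.1.symm hv3.2.symm hv1.1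
    hv2.2.1 hv1.2 hv2.2.2)

end Pool.Agent.Y297.RS.HALF
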